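import Pool.Agent.helper20.HP.S0
import Pool.Agent.helper65.HP.B4

/-! # MP_5ae64c_pr, module B5: visits of a level from an arbitrary state (helper81) -/

open scoped BigOperators Topology
open Filter MeasureTheory

namespace Pool.Agent.helper20.HP

open Finset

section B5States

variable {V : Type} [DecidableEq V]

/-- number of vertices below `z` in the list `γ` (the root is the last element) -/
def B5_idx (γ : List V) (z : V) : ℕ := (γ.dropWhile (fun w => decide (w ≠ z))).length - 1

theorem B5_dropWhile (τ σ : List V) (z : V) (h : z ∉ τ) :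
    (τ ++ z :: σ).dropWhile (fun w => decide (w ≠ z)) = z :: σ := by
  induction τ with
  | nil => simp
  | cons a τ ih =>
    have ha : a ≠ z := fun e => h (by simp [e])
    have hτ : z ∉ τ := fun e => h (by simp [e])
    simp only [List.cons_append, List.dropWhile_cons]
    simp only [ne_eq, ha, not_false_eq_true, decide_true, if_true]
    simpa using ih hτ

theorem B5_idx_eq {γ σ : List V} {z : V} (hnd : γ.Nodup) (h : (z :: σ) <:+ γ) :
    B5_idx γ z = σ.length := by
  obtain ⟨τ, rfl⟩ := h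
  have hz : z ∉ τ := by
    intro hz
    rw [List.nodup_append] at hnd
    exact hnd.2.2 z hz z (by simp) rfl
  unfold B5_idx
  rw [B5_dropWhile τ σ z hz]
  simp

omit [DecidableEq V] in
theorem B5_mem_rtake {γ σ : List V} {z : V} (h : (z :: σ) <:+ γ) {r : ℕ} (hr : σ.length ≤ r) :
    z ∈ γ.rtake (r + 1) := by
  obtain ⟨τ, rfl⟩ := h
  unfold List.rtake
  rw [List.drop_append_of_le_length (by simp; omega)]
  simp

/-- the `u`-th term of the decomposition of the word at the time of the minimal level -/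
noncomputable def B5_F (Γ : List V) (x : V) (ρ : List V) (r : ℕ) (l1 l2 : List V) : ℝ :=
  ind (∀ y ∈ l1, y ∉ Γ) * ind (lst x l1 ∈ (x :: ρ).rtake (r + 1)) *
    ind (lel (lst x l1) l2 = r - B5_idx (x :: ρ) (lst x l1))

theorem B5_F_nonneg (Γ : List V) (x : V) (ρ : List V) (r : ℕ) (l1 l2 : List V) :
    0 ≤ B5_F Γ x ρ r l1 l2 :=
  mul_nonneg (mul_nonneg (ind_nonneg _) (ind_nonneg _)) (ind_nonneg _)

/-- pointwise bound -/
theorem B5_point (Γ : List V) (x : V) (ρ : List V) (hnd : (x :: ρ).Nodup) (r : ℕ) (l : List V) :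
    ind (∀ y ∈ l, y ∉ Γ) * lev r x ρ l
      ≤ ∑ u ∈ range (l.length + 1), B5_F Γ x ρ r (l.take u) (l.drop u) := by
  by_cases h1 : ∀ y ∈ l, y ∉ Γ
  · by_cases h2 : (run (x :: ρ) l).length = r + 1
    · obtain ⟨l1, l2, z, σ, hl, hrun1, hz, hsuf, hav, hrun⟩ := split_min x ρ l hnd
      have hlen : lel z l2 + 1 + σ.length = r + 1 := by
        rw [← h2, hrun, List.length_append, run_single_length]
      have hσ : σ.length ≤ r := by omega
      have hidx : B5_idx (x :: ρ) z = σ.length := B5_idx_eq hnd hsuf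
      have ht : l.take l1.length = l1 := by rw [hl]; simp
      have hd : l.drop l1.length = l2 := by rw [hl]; simp
      have hterm : B5_F Γ x ρ r (l.take l1.length) (l.drop l1.length) = 1 := by
        rw [ht, hd]
        unfold B5_F
        rw [hz, ind_true (fun y hy => h1 y (by rw [hl]; simp [hy])),
          ind_true (B5_mem_rtake hsuf hσ), ind_true (by rw [hidx]; omega)]
        norm_num
      have hle : ind (∀ y ∈ l, y ∉ Γ) * lev r x ρ l ≤ 1 := by
        unfold lev
        rw [ind_true h1, ind_true h2]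
        norm_num
      refine hle.trans ?_
      rw [← hterm]
      refine Finset.single_le_sum (f := fun u => B5_F Γ x ρ r (l.take u) (l.drop u))
        (fun u _ => B5_F_nonneg _ _ _ _ _ _) ?_
      rw [Finset.mem_range, hl, List.length_append]
      omega
    · unfold lev
      rw [ind_false h2, mul_zero]
      exact Finset.sum_nonneg fun u _ => B5_F_nonneg _ _ _ _ _ _
  · rw [ind_false h1, zero_mul]
    exact Finset.sum_nonneg fun u _ => B5_F_nonneg _ _ _ _ _ _

end B5States

variable {V : Type} [Fintype V] [DecidableEq V] {K : HW V} {θ : ℝ} {h : ℕ}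

theorem B5_term (K : HW V) (Γ : List V) (x : V) (ρ : List V) (r u v : ℕ) :
    W K (u + v) x (fun l => B5_F Γ x ρ r (l.take u) (l.drop u))
      = W K u x (fun l1 => ind (∀ y ∈ l1, y ∉ Γ) * ind (lst x l1 ∈ (x :: ρ).rtake (r + 1)) *
          W K v (lst x l1) (fun l2 =>
            ind (lel (lst x l1) l2 = r - B5_idx (x :: ρ) (lst x l1)))) := by
  rw [W_split]
  refine W_congr K u x fun l1 hl1 => ?_
  rw [← W_mul_left]
  refine W_congr K v _ fun l2 _ => ?_
  have h1 : (l1 ++ l2).take u = l1 := by rw [← hl1]; simp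
  have h2 : (l1 ++ l2).drop u = l2 := by rw [← hl1]; simp
  rw [h1, h2]
  rfl

theorem B5_tri (g : ℕ → ℕ → ℝ) (hg : ∀ u v, 0 ≤ g u v) (T : ℕ) :
    ∑ t ∈ range (T + 1), ∑ u ∈ range (t + 1), g u (t - u)
      ≤ ∑ u ∈ range (T + 1), ∑ v ∈ range (T + 1), g u v := by
  have h1 : ∑ t ∈ range (T + 1), ∑ u ∈ range (t + 1), g u (t - u)
      = ∑ u ∈ range (T + 1), ∑ t ∈ Finset.Ico u (T + 1), g u (t - u) := by
    refine Finset.sum_comm' fun t u => ?_
    simp only [Finset.mem_range, Finset.mem_Ico]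
    omega
  rw [h1]
  refine Finset.sum_le_sum fun u hu => ?_
  rw [Finset.sum_Ico_eq_sum_range]
  have h2 : ∑ i ∈ range (T + 1 - u), g u (u + i - u) = ∑ i ∈ range (T + 1 - u), g u i :=
    Finset.sum_congr rfl fun i _ => by rw [Nat.add_sub_cancel_left]
  rw [h2]
  exact Finset.sum_le_sum_of_subset_of_nonneg (Finset.range_subset_range.2 (by omega))
    fun i _ _ => hg u i

theorem visits (hP : Par K θ h) (Γ : List V) (x : V) (ρ : List V) (hnd : (x :: ρ).Nodup) (r T : ℕ)
    (hT : 4 * T ≤ Nat.sqrt (Fintype.card V)) :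
    ∑ t ∈ Finset.range (T + 1), W K t x (fun l => ind (∀ y ∈ l, y ∉ Γ) * lev r x ρ l)
      ≤ CZ θ * ∑ u ∈ Finset.range (T + 1), W K u x (fun l => ind (∀ y ∈ l, y ∉ Γ) *
          ind (lst x l ∈ (x :: ρ).rtake (r + 1))) := by
  have hTs : T ≤ Nat.sqrt (Fintype.card V) := by omega
  set g : ℕ → ℕ → ℝ := fun u v =>
    W K u x (fun l1 => ind (∀ y ∈ l1, y ∉ Γ) * ind (lst x l1 ∈ (x :: ρ).rtake (r + 1)) *
          W K v (lst x l1) (fun l2 =>
            ind (lel (lst x l1) l2 = r - B5_idx (x :: ρ) (lst x l1)))) with hg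
  have hg0 : ∀ u v, 0 ≤ g u v := fun u v =>
    W_nonneg K u x fun l1 _ => mul_nonneg (mul_nonneg (ind_nonneg _) (ind_nonneg _))
      (W_nonneg K v _ fun l2 _ => ind_nonneg _)
  have step1 : ∑ t ∈ Finset.range (T + 1), W K t x (fun l => ind (∀ y ∈ l, y ∉ Γ) * lev r x ρ l)
      ≤ ∑ t ∈ range (T + 1), ∑ u ∈ range (t + 1), g u (t - u) := by
    refine Finset.sum_le_sum fun t _ => ?_
    calc W K t x (fun l => ind (∀ y ∈ l, y ∉ Γ) * lev r x ρ l)
        ≤ W K t x (fun l => ∑ u ∈ range (t + 1), B5_F Γ x ρ r (l.take u) (l.drop u)) := by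
          refine W_mono K t x fun l hl => ?_
          have := B5_point Γ x ρ hnd r l
          rwa [hl] at this
      _ = ∑ u ∈ range (t + 1), W K t x (fun l => B5_F Γ x ρ r (l.take u) (l.drop u)) :=
          W_sum K _ t x _
      _ = ∑ u ∈ range (t + 1), g u (t - u) := by
          refine Finset.sum_congr rfl fun u hu => ?_
          have hu' : u ≤ t := by simpa [Nat.lt_succ_iff] using Finset.mem_range.1 hu
          have := B5_term K Γ x ρ r u (t - u)
          rw [Nat.add_sub_cancel' hu'] at this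
          exact this
  refine step1.trans ((B5_tri g hg0 T).trans ?_)
  rw [Finset.mul_sum]
  refine Finset.sum_le_sum fun u _ => ?_
  rw [hg]
  dsimp only
  rw [← W_sum, ← W_mul_left]
  refine W_mono K u x fun l1 _ => ?_
  rw [← Finset.mul_sum]
  have hz := Zq_le hP T (r - B5_idx (x :: ρ) (lst x l1)) (lst x l1) hTs
  unfold Zq at hz
  rw [mul_comm (CZ θ)]
  exact mul_le_mul_of_nonneg_left hz (mul_nonneg (ind_nonneg _) (ind_nonneg _))

/-- without killing -/
theorem visits' (hP : Par K θ h) (x : V) (ρ : List V) (hnd : (x :: ρ).Nodup) (r T : ℕ)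
    (hT : 4 * T ≤ Nat.sqrt (Fintype.card V)) :
    ∑ t ∈ Finset.range (T + 1), W K t x (fun l => lev r x ρ l)
      ≤ CZ θ * ∑ u ∈ Finset.range (T + 1), W K u x (fun l =>
          ind (lst x l ∈ (x :: ρ).rtake (r + 1))) := by
  have hv := visits hP [] x ρ hnd r T hT
  have hind : ∀ l : List V, ind (∀ y ∈ l, y ∉ ([] : List V)) = 1 := fun l => ind_true (by simp)
  simpa only [hind, one_mul] using hv

end Pool.Agent.helper20.HP
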