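import Pool.Agent.helper20.HP.Defs2
import Pool.Agent.helper20.HP.S1

/-! # MP_5ae64c_pr, module E6: the error term err_B (helper81) -/

open scoped BigOperators Topology
open Filter MeasureTheory

namespace Pool.Agent.helper20.HP

open Finset

section E6States

variable {V : Type} [DecidableEq V]

theorem E6_len_pos (x : V) (ρ l : List V) : 1 ≤ (run (x :: ρ) l).length := by
  obtain ⟨τ, hτ⟩ := run_head x ρ l
  rw [hτ]; simp

theorem E6_lev (x : V) (ρ l : List V) (r j : ℕ) :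
    ind ((run (x :: ρ) l).length + j = r + 1) ≤ lev (r - j) x ρ l := by
  unfold lev
  refine ind_mono fun h => ?_
  have := E6_len_pos x ρ l
  omega

omit [DecidableEq V] in
theorem E6_nodup (Γ : List V) (hΓ : Γ.Nodup) (i : Fin Γ.length) :
    (Γ.get i :: Γ.drop (i + 1)).Nodup := by
  have h1 : Γ.get i :: Γ.drop (i + 1) = Γ.drop i := by
    simp
  rw [h1]
  exact hΓ.sublist (List.drop_sublist _ _)

omit [DecidableEq V] in
theorem E6_split_last (x : V) (l : List V) : ∃ τ : List V, x :: l = τ ++ [lst x l] := by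
  induction l generalizing x with
  | nil => exact ⟨[], by simp [lst]⟩
  | cons a l ih =>
    obtain ⟨τ, hτ⟩ := ih a
    refine ⟨x :: τ, ?_⟩
    have h1 : lst x (a :: l) = lst a l := by unfold lst; rw [List.getLastD_cons]
    rw [h1, List.cons_append, ← hτ]

omit [DecidableEq V] in
theorem E6_rdrop (l B : List V) (k : ℕ) (hB : B.length = k) : (l ++ B).rdrop k = l := by
  unfold List.rdrop
  rw [List.length_append, hB, Nat.add_sub_cancel]
  simp

omit [DecidableEq V] in
theorem E6_rtake (x : V) (l B R : List V) (k : ℕ) (hB : B.length = k) :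
    (x :: (l ++ B ++ R)).rtake (k + 1 + R.length) = lst x l :: (B ++ R) := by
  obtain ⟨τ, hτ⟩ := E6_split_last x l
  have h1 : x :: (l ++ B ++ R) = τ ++ (lst x l :: (B ++ R)) := by
    have : x :: (l ++ B ++ R) = (x :: l) ++ (B ++ R) := by simp
    rw [this, hτ]
    simp
  rw [h1]
  unfold List.rtake
  have h2 : (τ ++ (lst x l :: (B ++ R))).length - (k + 1 + R.length) = τ.length := by
    simp only [List.length_append, List.length_cons, hB]
    omega
  rw [h2]
  simp

/-- levels without long hits -/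
theorem E6_levels (h : ℕ) (x : V) (ρ l B F : List V) (r K0 m : ℕ) (z : V)
    (hnd : (x :: ρ).Nodup) (hB : B.length = 2 * h) (hno : ¬ LHin (2 * h) (2 * h) x ρ (l ++ B))
    (hF : F.length = m) (hm : m ≤ K0)
    (hlev : (run (x :: ρ) (l ++ B)).length + lel z F = r + 1) :
    (run (x :: ρ) l).length ≤ r + 2 * h + 1 ∧
      r + 1 ≤ (run (x :: ρ) l).length + K0 + 2 * h := by
  have h1 : NoLH (2 * h) x ρ l B := (not_LHin_iff (2 * h) (2 * h) x ρ l B hB).1 hno
  have h2 := NoLH_drop (2 * h) x ρ l B hnd hB.le h1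
  have h3 : (run (x :: ρ) (l ++ B)).length ≤ (run (x :: ρ) l).length + B.length := by
    rw [run_append]; exact run_length_le _ _
  have h4 := lel_le z F
  omega

end E6States

variable {V : Type} [Fintype V] [DecidableEq V] {K : HW V} {θ : ℝ} {h : ℕ}

theorem E6_CZ_nonneg (θ : ℝ) : 0 ≤ CZ θ := by unfold CZ; positivity

theorem E6_Zsum (hP : Par K θ h) (T : ℕ) (hT : T ≤ Nat.sqrt (Fintype.card V)) (z : V) (L0 r : ℕ) :
    ∑ m ∈ range (T + 1), W K m z (fun F => ind (L0 + lel z F = r + 1))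
      ≤ CZ θ * ∑ j ∈ range (T + 1), ind (L0 + j = r + 1) := by
  by_cases hc : ∃ j ∈ range (T + 1), L0 + j = r + 1
  · obtain ⟨j, hj, hj2⟩ := hc
    have h1 : (1 : ℝ) ≤ ∑ j ∈ range (T + 1), ind (L0 + j = r + 1) := by
      have := Finset.single_le_sum (f := fun j => ind (L0 + j = r + 1))
        (fun i _ => ind_nonneg _) hj
      simpa [ind_true hj2] using this
    have h2 : ∑ m ∈ range (T + 1), W K m z (fun F => ind (L0 + lel z F = r + 1))
        ≤ Zq K T j z := by
      unfold Zq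
      refine Finset.sum_le_sum fun m _ => W_mono K m z fun F _ => ind_mono fun e => ?_
      omega
    calc _ ≤ Zq K T j z := h2
      _ ≤ CZ θ := Zq_le hP T j z hT
      _ = CZ θ * 1 := (mul_one _).symm
      _ ≤ _ := mul_le_mul_of_nonneg_left h1 (E6_CZ_nonneg θ)
  · have h0 : ∑ m ∈ range (T + 1), W K m z (fun F => ind (L0 + lel z F = r + 1)) = 0 := by
      refine Finset.sum_eq_zero fun m hm => ?_
      rw [W_congr K m z (g := fun _ => 0) fun F hF => ?_, W_const]
      refine ind_false fun e => hc ⟨lel z F, ?_, e⟩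
      have := lel_le z F
      have := Finset.mem_range.1 hm
      rw [Finset.mem_range]; omega
    rw [h0]
    exact mul_nonneg (E6_CZ_nonneg θ) (Finset.sum_nonneg fun _ _ => ind_nonneg _)

/-- the full summand of `err_B` -/
noncomputable def E6_f (K : HW V) (h : ℕ) (Γ : List V) (r g m u : ℕ) (x : V) (ρ l : List V) : ℝ :=
  W K u (lst x l) (fun R => W K m (lst (lst x l) R) (fun F =>
        ind (lel (lst x l) R = g) *
        ind ((run (x :: ρ) l).length + lel (lst (lst x l) R) F = r + 1) *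
        ind ((∃ y ∈ R, y ∈ Γ ∨ y ∈ run (x :: ρ) (l.rdrop (2 * h))) ∨
          (∃ y ∈ F, y ∈ Γ ∨ y ∈ run (x :: ρ) (l.rdrop (2 * h))) ∨
          (∃ y ∈ F.drop (2 * h), y ∈ (x :: (l ++ R)).rtake (2 * h + 1 + R.length)))))

theorem E6_f_nonneg (K : HW V) (h : ℕ) (Γ : List V) (r g m u : ℕ) (x : V) (ρ l : List V) :
    0 ≤ E6_f K h Γ r g m u x ρ l :=
  W_nonneg K u _ fun _ _ => W_nonneg K m _ fun _ _ =>
    mul_nonneg (mul_nonneg (ind_nonneg _) (ind_nonneg _)) (ind_nonneg _)

/-- crude bound used when there is a long hit -/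
theorem E6_crude (hP : Par K θ h) (Γ : List V) (r g K0 U : ℕ)
    (hK : K0 ≤ Nat.sqrt (Fintype.card V)) (hU : U ≤ Nat.sqrt (Fintype.card V))
    (x : V) (ρ l : List V) :
    ∑ m ∈ range (K0 + 1), ∑ u ∈ range (U + 1), E6_f K h Γ r g m u x ρ l
      ≤ CZ θ ^ 2 * ∑ j ∈ range (K0 + 1), ind ((run (x :: ρ) l).length + j = r + 1) := by
  rw [Finset.sum_comm]
  set S : ℝ := ∑ j ∈ range (K0 + 1), ind ((run (x :: ρ) l).length + j = r + 1) with hS
  have hS0 : 0 ≤ S := Finset.sum_nonneg fun _ _ => ind_nonneg _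
  have h1 : ∀ u, ∑ m ∈ range (K0 + 1), E6_f K h Γ r g m u x ρ l
      ≤ W K u (lst x l) (fun R => ind (lel (lst x l) R = g)) * (CZ θ * S) := by
    intro u
    calc ∑ m ∈ range (K0 + 1), E6_f K h Γ r g m u x ρ l
        ≤ ∑ m ∈ range (K0 + 1), W K u (lst x l) (fun R => ind (lel (lst x l) R = g) *
            W K m (lst (lst x l) R) (fun F =>
              ind ((run (x :: ρ) l).length + lel (lst (lst x l) R) F = r + 1))) := by
          refine Finset.sum_le_sum fun m _ => ?_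
          unfold E6_f
          refine W_mono K u _ fun R _ => ?_
          rw [← W_mul_left]
          refine W_mono K m _ fun F _ => ?_
          calc _ ≤ ind (lel (lst x l) R = g) *
                ind ((run (x :: ρ) l).length + lel (lst (lst x l) R) F = r + 1) * 1 :=
                mul_le_mul_of_nonneg_left (ind_le_one _)
                  (mul_nonneg (ind_nonneg _) (ind_nonneg _))
            _ = _ := mul_one _
      _ = W K u (lst x l) (fun R => ind (lel (lst x l) R = g) *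
            ∑ m ∈ range (K0 + 1), W K m (lst (lst x l) R) (fun F =>
              ind ((run (x :: ρ) l).length + lel (lst (lst x l) R) F = r + 1))) := by
          rw [← W_sum]
          refine W_congr K u _ fun R _ => ?_
          rw [Finset.mul_sum]
      _ ≤ W K u (lst x l) (fun R => ind (lel (lst x l) R = g) * (CZ θ * S)) := by
          refine W_mono K u _ fun R _ => mul_le_mul_of_nonneg_left ?_ (ind_nonneg _)
          exact E6_Zsum hP K0 hK _ _ _
      _ = _ := W_mul_right K u _ _ _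
  calc _ ≤ ∑ u ∈ range (U + 1), W K u (lst x l) (fun R => ind (lel (lst x l) R = g)) *
        (CZ θ * S) := Finset.sum_le_sum fun u _ => h1 u
    _ = Zq K U g (lst x l) * (CZ θ * S) := by rw [← Finset.sum_mul]; rfl
    _ ≤ CZ θ * (CZ θ * S) := mul_le_mul_of_nonneg_right (Zq_le hP U g _ hU)
        (mul_nonneg (E6_CZ_nonneg θ) hS0)
    _ = _ := by ring

/-- the fine bound, given the word `l` and `2h` further steps -/
theorem E6_fine (hP : Par K θ h) (Γ : List V) (r g K0 U : ℕ)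
    (hKU : 4 * (K0 + U) ≤ Nat.sqrt (Fintype.card V))
    (x : V) (ρ l : List V) :
    ∑ m ∈ range (K0 + 1), ∑ u ∈ range (U + 1), W K (2 * h) (lst x l) (fun B =>
        E6_f K h Γ r g m u x ρ (l ++ B))
      ≤ CZ θ ^ 2 * θ * (3 / (2 * (Fintype.card V : ℝ))) *
        (((U : ℝ) + K0) * (Γ ++ run (x :: ρ) l).length + 2 * K0 * (2 * h + 1 + U)) := by
  set A : List V := Γ ++ run (x :: ρ) l with hA
  set x0 := lst x l with hx0
  have hU4 : 4 * U ≤ Nat.sqrt (Fintype.card V) := by omega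
  have hK4 : 4 * K0 ≤ Nat.sqrt (Fintype.card V) := by omega
  have hUs : U ≤ Nat.sqrt (Fintype.card V) := by omega
  have hKs : K0 ≤ Nat.sqrt (Fintype.card V) := by omega
  have hCZ := E6_CZ_nonneg θ
  have hθ : 0 ≤ θ := le_trans zero_le_one hP.one_le
  -- pointwise splitting of the bad event
  have hpt : ∀ m u (B : List V), B.length = 2 * h → E6_f K h Γ r g m u x ρ (l ++ B) ≤
      W K u (lst x0 B) (fun R => W K m (lst (lst x0 B) R) (fun F =>
        ind (lel (lst x0 B) R = g) * ind (∃ y ∈ R, y ∈ A) *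
          ind ((run (x :: ρ) (l ++ B)).length + lel (lst (lst x0 B) R) F = r + 1))) +
      (W K u (lst x0 B) (fun R => ind (lel (lst x0 B) R = g) *
        W K m (lst (lst x0 B) R) (fun F =>
          ind (lel (lst (lst x0 B) R) F = r + 1 - (run (x :: ρ) (l ++ B)).length) *
            ind (∃ y ∈ F, y ∈ A))) +
      W K u (lst x0 B) (fun R => ind (lel (lst x0 B) R = g) *
        W K m (lst (lst x0 B) R) (fun F =>
          ind (lel (lst (lst x0 B) R) F = r + 1 - (run (x :: ρ) (l ++ B)).length) *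
            ind (∃ y ∈ F.drop (2 * h), y ∈ x0 :: (B ++ R))))) := by
    intro m u B hB
    unfold E6_f
    rw [lst_append, ← hx0, E6_rdrop l B (2 * h) hB, ← W_add, ← W_add]
    refine W_mono K u _ fun R _ => ?_
    rw [E6_rtake x l B R (2 * h) hB, ← hx0, ← W_mul_left, ← W_mul_left, ← W_add, ← W_add]
    refine W_mono K m _ fun F _ => ?_
    have e1 : ∀ y : V, (y ∈ Γ ∨ y ∈ run (x :: ρ) l) ↔ y ∈ A := fun y => by
      rw [hA, List.mem_append]
    simp only [e1]
    set p1 := lel (lst x0 B) R = g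
    set p2 := (run (x :: ρ) (l ++ B)).length + lel (lst (lst x0 B) R) F = r + 1 with hp2
    set p3 := lel (lst (lst x0 B) R) F = r + 1 - (run (x :: ρ) (l ++ B)).length with hp3
    have h23 : ind p2 ≤ ind p3 := ind_mono fun e => by
      rw [hp2] at e; rw [hp3]; omega
    set q1 := ∃ y ∈ R, y ∈ A
    set q2 := ∃ y ∈ F, y ∈ A
    set q3 := ∃ y ∈ F.drop (2 * h), y ∈ x0 :: (B ++ R)
    have hor : ind (q1 ∨ q2 ∨ q3) ≤ ind q1 + (ind q2 + ind q3) :=
      (ind_or_le _ _).trans (add_le_add le_rfl (ind_or_le _ _))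
    have n1 := ind_nonneg p1
    have n2 := ind_nonneg p2
    have m1 := ind_nonneg q1
    have m2 := ind_nonneg q2
    have m3 := ind_nonneg q3
    calc ind p1 * ind p2 * ind (q1 ∨ q2 ∨ q3)
        ≤ ind p1 * ind p2 * (ind q1 + (ind q2 + ind q3)) :=
          mul_le_mul_of_nonneg_left hor (mul_nonneg n1 n2)
      _ = ind p1 * ind q1 * ind p2 + (ind p1 * (ind p2 * ind q2) + ind p1 * (ind p2 * ind q3)) := by
          ring
      _ ≤ ind p1 * ind q1 * ind p2 + (ind p1 * (ind p3 * ind q2) + ind p1 * (ind p3 * ind q3)) := by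
          have a1 : ind p2 * ind q2 ≤ ind p3 * ind q2 := mul_le_mul_of_nonneg_right h23 m2
          have a2 : ind p2 * ind q3 ≤ ind p3 * ind q3 := mul_le_mul_of_nonneg_right h23 m3
          have b1 := mul_le_mul_of_nonneg_left a1 n1
          have b2 := mul_le_mul_of_nonneg_left a2 n1
          linarith
  -- first part: hits by R
  have partA : ∑ m ∈ range (K0 + 1), ∑ u ∈ range (U + 1), W K (2 * h) x0 (fun B =>
      W K u (lst x0 B) (fun R => W K m (lst (lst x0 B) R) (fun F =>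
        ind (lel (lst x0 B) R = g) * ind (∃ y ∈ R, y ∈ A) *
          ind ((run (x :: ρ) (l ++ B)).length + lel (lst (lst x0 B) R) F = r + 1))))
      ≤ CZ θ * (CZ θ * θ * (U * A.length * (3 / (2 * (Fintype.card V : ℝ))))) := by
    rw [Finset.sum_comm]
    have hX := X1 hP U hU4 x0 (fun _ => g) A
    refine le_trans ?_ (mul_le_mul_of_nonneg_left hX hCZ)
    rw [Finset.mul_sum]
    refine Finset.sum_le_sum fun u _ => ?_
    rw [← W_sum, ← W_mul_left]
    refine W_mono K _ _ fun B _ => ?_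
    rw [← W_sum, ← W_mul_left]
    refine W_mono K _ _ fun R _ => ?_
    have hZ := E6_Zsum hP K0 hKs (lst (lst x0 B) R) (run (x :: ρ) (l ++ B)).length r
    have hone : ∑ j ∈ range (K0 + 1), ind ((run (x :: ρ) (l ++ B)).length + j = r + 1) ≤ 1 := by
      by_cases hc : ∃ j ∈ range (K0 + 1), (run (x :: ρ) (l ++ B)).length + j = r + 1
      · obtain ⟨j, hj, hj2⟩ := hc
        rw [Finset.sum_eq_single_of_mem j hj fun i _ hi => ind_false fun e => hi (by omega)]
        exact ind_le_one _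
      · rw [Finset.sum_eq_zero fun j hj => ind_false fun e => hc ⟨j, hj, e⟩]
        exact zero_le_one
    have hZ1 : ∑ m ∈ range (K0 + 1), W K m (lst (lst x0 B) R) (fun F =>
        ind ((run (x :: ρ) (l ++ B)).length + lel (lst (lst x0 B) R) F = r + 1)) ≤ CZ θ :=
      hZ.trans (by simpa using mul_le_mul_of_nonneg_left hone hCZ)
    calc ∑ m ∈ range (K0 + 1), W K m (lst (lst x0 B) R) (fun F =>
          ind (lel (lst x0 B) R = g) * ind (∃ y ∈ R, y ∈ A) *
            ind ((run (x :: ρ) (l ++ B)).length + lel (lst (lst x0 B) R) F = r + 1))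
        = (ind (lel (lst x0 B) R = g) * ind (∃ y ∈ R, y ∈ A)) *
          ∑ m ∈ range (K0 + 1), W K m (lst (lst x0 B) R) (fun F =>
            ind ((run (x :: ρ) (l ++ B)).length + lel (lst (lst x0 B) R) F = r + 1)) := by
          rw [Finset.mul_sum]
          refine Finset.sum_congr rfl fun m _ => ?_
          rw [← W_mul_left]
      _ ≤ (ind (lel (lst x0 B) R = g) * ind (∃ y ∈ R, y ∈ A)) * CZ θ :=
          mul_le_mul_of_nonneg_left hZ1 (mul_nonneg (ind_nonneg _) (ind_nonneg _))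
      _ = _ := by ring
  -- second part: hits by F
  have partB : ∑ m ∈ range (K0 + 1), ∑ u ∈ range (U + 1), W K (2 * h) x0 (fun B =>
      W K u (lst x0 B) (fun R => ind (lel (lst x0 B) R = g) *
        W K m (lst (lst x0 B) R) (fun F =>
          ind (lel (lst (lst x0 B) R) F = r + 1 - (run (x :: ρ) (l ++ B)).length) *
            ind (∃ y ∈ F, y ∈ A))))
      ≤ CZ θ ^ 2 * θ * (K0 * A.length * (3 / (2 * (Fintype.card V : ℝ)))) := by
    rw [Finset.sum_comm]
    exact X2 hP K0 U g hK4 hU4 x0 (fun B => r + 1 - (run (x :: ρ) (l ++ B)).length) A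
  -- third part: late hits by F of the last vertices
  have partC : ∑ m ∈ range (K0 + 1), ∑ u ∈ range (U + 1), W K (2 * h) x0 (fun B =>
      W K u (lst x0 B) (fun R => ind (lel (lst x0 B) R = g) *
        W K m (lst (lst x0 B) R) (fun F =>
          ind (lel (lst (lst x0 B) R) F = r + 1 - (run (x :: ρ) (l ++ B)).length) *
            ind (∃ y ∈ F.drop (2 * h), y ∈ x0 :: (B ++ R)))))
      ≤ CZ θ * (2 * CZ θ * θ * (K0 * (2 * h + 1 + U) * (3 / (2 * (Fintype.card V : ℝ))))) := by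
    set c0 : ℝ := 2 * CZ θ * θ * (K0 * (2 * h + 1 + U) * (3 / (2 * (Fintype.card V : ℝ)))) with hc0
    have hc00 : 0 ≤ c0 := by positivity
    rw [Finset.sum_comm]
    have hu : ∀ u ∈ range (U + 1), ∑ m ∈ range (K0 + 1), W K (2 * h) x0 (fun B =>
      W K u (lst x0 B) (fun R => ind (lel (lst x0 B) R = g) *
        W K m (lst (lst x0 B) R) (fun F =>
          ind (lel (lst (lst x0 B) R) F = r + 1 - (run (x :: ρ) (l ++ B)).length) *
            ind (∃ y ∈ F.drop (2 * h), y ∈ x0 :: (B ++ R))))) ≤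
        W K (2 * h) x0 (fun B => W K u (lst x0 B) (fun R => ind (lel (lst x0 B) R = g)) * c0) := by
      intro u hu
      rw [← W_sum]
      refine W_mono K _ _ fun B hB => ?_
      rw [← W_sum, ← W_mul_right]
      refine W_mono K _ _ fun R hR => ?_
      rw [← Finset.mul_sum]
      refine mul_le_mul_of_nonneg_left ?_ (ind_nonneg _)
      refine (X3 hP K0 hK4 _ _ (x0 :: (B ++ R))).trans ?_
      have hlen : ((x0 :: (B ++ R)).length : ℝ) ≤ 2 * h + 1 + U := by
        have hu' : u ≤ U := by simpa [Nat.lt_succ_iff] using Finset.mem_range.1 hu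
        have : (x0 :: (B ++ R)).length ≤ 2 * h + 1 + U := by
          simp only [List.length_cons, List.length_append, hB, hR]; omega
        exact_mod_cast this
      rw [hc0]
      gcongr
    refine (Finset.sum_le_sum hu).trans ?_
    rw [← W_sum]
    have : ∀ B : List V, ∑ u ∈ range (U + 1), W K u (lst x0 B) (fun R =>
        ind (lel (lst x0 B) R = g)) * c0 ≤ CZ θ * c0 := by
      intro B
      rw [← Finset.sum_mul]
      exact mul_le_mul_of_nonneg_right (Zq_le hP U g _ hUs) hc00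
    calc _ ≤ W K (2 * h) x0 (fun _ => CZ θ * c0) := W_mono K _ _ fun B _ => this B
      _ = _ := W_const K _ _ _
  -- total
  calc _ ≤ ∑ m ∈ range (K0 + 1), ∑ u ∈ range (U + 1), (W K (2 * h) x0 (fun B =>
      W K u (lst x0 B) (fun R => W K m (lst (lst x0 B) R) (fun F =>
        ind (lel (lst x0 B) R = g) * ind (∃ y ∈ R, y ∈ A) *
          ind ((run (x :: ρ) (l ++ B)).length + lel (lst (lst x0 B) R) F = r + 1)))) +
      (W K (2 * h) x0 (fun B =>
      W K u (lst x0 B) (fun R => ind (lel (lst x0 B) R = g) *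
        W K m (lst (lst x0 B) R) (fun F =>
          ind (lel (lst (lst x0 B) R) F = r + 1 - (run (x :: ρ) (l ++ B)).length) *
            ind (∃ y ∈ F, y ∈ A)))) +
      W K (2 * h) x0 (fun B =>
      W K u (lst x0 B) (fun R => ind (lel (lst x0 B) R = g) *
        W K m (lst (lst x0 B) R) (fun F =>
          ind (lel (lst (lst x0 B) R) F = r + 1 - (run (x :: ρ) (l ++ B)).length) *
            ind (∃ y ∈ F.drop (2 * h), y ∈ x0 :: (B ++ R))))))) := by
        refine Finset.sum_le_sum fun m _ => Finset.sum_le_sum fun u _ => ?_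
        rw [← W_add, ← W_add]
        exact W_mono K _ _ fun B hB => hpt m u B hB
    _ ≤ CZ θ * (CZ θ * θ * (U * A.length * (3 / (2 * (Fintype.card V : ℝ))))) +
        (CZ θ ^ 2 * θ * (K0 * A.length * (3 / (2 * (Fintype.card V : ℝ)))) +
        CZ θ * (2 * CZ θ * θ * (K0 * (2 * h + 1 + U) * (3 / (2 * (Fintype.card V : ℝ)))))) := by
        simp only [Finset.sum_add_distrib]
        exact add_le_add partA (add_le_add partB partC)
    _ = _ := by ring

/-- moving the sums over `m` and `u` inside -/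
theorem E6_swap (K : HW V) (Γ : List V) (K0 U a b : ℕ)
    (f : ℕ → ℕ → V → List V → List V → ℝ) :
    ∑ m ∈ range (K0 + 1), ∑ u ∈ range (U + 1), ∑ s ∈ Finset.Ico a b, kmT K Γ s (f m u)
      = ∑ s ∈ Finset.Ico a b, kmT K Γ s (fun x ρ l =>
          ∑ m ∈ range (K0 + 1), ∑ u ∈ range (U + 1), f m u x ρ l) := by
  calc ∑ m ∈ range (K0 + 1), ∑ u ∈ range (U + 1), ∑ s ∈ Finset.Ico a b, kmT K Γ s (f m u)
      = ∑ m ∈ range (K0 + 1), ∑ s ∈ Finset.Ico a b, ∑ u ∈ range (U + 1), kmT K Γ s (f m u) :=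
        Finset.sum_congr rfl fun m _ => Finset.sum_comm
    _ = ∑ s ∈ Finset.Ico a b, ∑ m ∈ range (K0 + 1), ∑ u ∈ range (U + 1), kmT K Γ s (f m u) :=
        Finset.sum_comm
    _ = _ := by
        refine Finset.sum_congr rfl fun s _ => ?_
        rw [kmT_sum]
        refine Finset.sum_congr rfl fun m _ => ?_
        rw [kmT_sum]

/-- the words with a long hit in the last `2h` steps -/
theorem E6_partLH (hP : Par K θ h) (Γ : List V) (hΓ : Γ.Nodup) (r g K0 U N : ℕ)
    (hKU : 4 * (K0 + U) ≤ Nat.sqrt (Fintype.card V)) :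
    ∑ s ∈ Finset.Ico (2 * h) N, kmT K Γ s (fun x ρ l => ind (LHin (2 * h) (2 * h) x ρ l) *
        ∑ m ∈ range (K0 + 1), ∑ u ∈ range (U + 1), E6_f K h Γ r g m u x ρ l)
      ≤ CZ θ ^ 2 * (((K0 : ℝ) + 1) * (3 / 2 * CZ θ * (2 * h + 1))) := by
  have hCZ := E6_CZ_nonneg θ
  have hh := hP.h_le
  have hKs : K0 ≤ Nat.sqrt (Fintype.card V) := by omega
  have hUs : U ≤ Nat.sqrt (Fintype.card V) := by omega
  calc ∑ s ∈ Finset.Ico (2 * h) N, kmT K Γ s (fun x ρ l => ind (LHin (2 * h) (2 * h) x ρ l) *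
        ∑ m ∈ range (K0 + 1), ∑ u ∈ range (U + 1), E6_f K h Γ r g m u x ρ l)
      ≤ ∑ s ∈ Finset.Ico (2 * h) N, kmT K Γ s (fun x ρ l => CZ θ ^ 2 *
          ∑ j ∈ range (K0 + 1), ind (LHin (2 * h) (2 * h) x ρ l) * lev (r - j) x ρ l) := by
        refine Finset.sum_le_sum fun s _ => kmT_mono K Γ s fun i l _ _ => ?_
        refine (mul_le_mul_of_nonneg_left (E6_crude hP Γ r g K0 U hKs hUs _ _ _)
          (ind_nonneg _)).trans ?_
        rw [← Finset.mul_sum]
        have h1 : ∑ j ∈ range (K0 + 1), ind ((run (Γ.get i :: Γ.drop (i + 1)) l).length + j = r + 1)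
            ≤ ∑ j ∈ range (K0 + 1), lev (r - j) (Γ.get i) (Γ.drop (i + 1)) l :=
          Finset.sum_le_sum fun j _ => E6_lev _ _ _ _ _
        have h2 := mul_le_mul_of_nonneg_left h1 (ind_nonneg
          (LHin (2 * h) (2 * h) (Γ.get i) (Γ.drop (i + 1)) l))
        have h3 := mul_le_mul_of_nonneg_left h2 (pow_nonneg hCZ 2)
        linarith
    _ ≤ ∑ s ∈ Finset.range N, kmT K Γ s (fun x ρ l => CZ θ ^ 2 *
          ∑ j ∈ range (K0 + 1), ind (LHin (2 * h) (2 * h) x ρ l) * lev (r - j) x ρ l) := by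
        refine Finset.sum_le_sum_of_subset_of_nonneg (fun s hs => ?_) fun s _ _ => ?_
        · simp only [Finset.mem_Ico] at hs; simp [hs.2]
        · refine kmT_nonneg K Γ s fun x ρ l => mul_nonneg (pow_nonneg hCZ 2)
            (Finset.sum_nonneg fun j _ => mul_nonneg (ind_nonneg _) (ind_nonneg _))
    _ = CZ θ ^ 2 * ∑ j ∈ range (K0 + 1), km K Γ N (fun x ρ l =>
          ind (LHin (2 * h) (2 * h) x ρ l) * lev (r - j) x ρ l) := by
        rw [← km_sum, ← km_mul_left]; rfl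
    _ ≤ CZ θ ^ 2 * ∑ _j ∈ range (K0 + 1), 3 / 2 * CZ θ * (((2 * h : ℕ) : ℝ) + 1) :=
        mul_le_mul_of_nonneg_left (Finset.sum_le_sum fun j _ =>
          LH_mass hP Γ hΓ N (r - j) (2 * h) (by omega)) (pow_nonneg hCZ 2)
    _ = _ := by
        rw [Finset.sum_const, Finset.card_range, nsmul_eq_mul]
        push_cast
        ring

/-- the words without long hit in the last `2h` steps -/
theorem E6_partNo (hP : Par K θ h) (Γ : List V) (hΓ : Γ.Nodup) (A : ℝ)
    (hΓl : (Γ.length : ℝ) ≤ A * Nat.sqrt (Fintype.card V)) (r g K0 U N : ℕ)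
    (hr : (r : ℝ) ≤ A * Nat.sqrt (Fintype.card V))
    (hKU : 4 * (K0 + U) ≤ Nat.sqrt (Fintype.card V)) :
    ∑ s ∈ Finset.Ico (2 * h) N, kmT K Γ s (fun x ρ l => (1 - ind (LHin (2 * h) (2 * h) x ρ l)) *
        ∑ m ∈ range (K0 + 1), ∑ u ∈ range (U + 1), E6_f K h Γ r g m u x ρ l)
      ≤ (CZ θ ^ 2 * θ * (3 / (2 * (Fintype.card V : ℝ))) *
        (((U : ℝ) + K0) * ((2 * A + 1) * Nat.sqrt (Fintype.card V)) +
          2 * K0 * Nat.sqrt (Fintype.card V))) *
        (((K0 : ℝ) + 4 * h + 1) * (CP θ * ((2 + A) * Nat.sqrt (Fintype.card V)))) := by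
  set sn : ℝ := (Nat.sqrt (Fintype.card V) : ℝ) with hsn
  have hCZ := E6_CZ_nonneg θ
  have hh := hP.h_le
  have hθ : 0 ≤ θ := le_trans zero_le_one hP.one_le
  have hCP : 0 ≤ CP θ := by unfold CP; positivity
  have hh1 := hP.h_pos
  have hsn0 : 0 ≤ sn := Nat.cast_nonneg _
  have hA0 : 0 ≤ A := by
    have h1 : (0 : ℝ) < sn := by
      rw [hsn]; exact_mod_cast (show 0 < Nat.sqrt (Fintype.card V) by omega)
    by_contra hneg
    push Not at hneg
    have := mul_neg_of_neg_of_pos hneg h1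
    have h2 : (0 : ℝ) ≤ r := Nat.cast_nonneg _
    linarith
  set E : ℝ := CZ θ ^ 2 * θ * (3 / (2 * (Fintype.card V : ℝ))) *
        (((U : ℝ) + K0) * ((2 * A + 1) * sn) + 2 * K0 * sn) with hE
  have hE0 : 0 ≤ E := by positivity
  -- the pointwise bound
  have key : ∀ (i : Fin Γ.length) (l : List V),
      W K (2 * h) (lst (Γ.get i) l) (fun B => ind (∀ y ∈ B, y ∉ Γ) *
        ((1 - ind (LHin (2 * h) (2 * h) (Γ.get i) (Γ.drop (i + 1)) (l ++ B))) *
          ∑ m ∈ range (K0 + 1), ∑ u ∈ range (U + 1),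
            E6_f K h Γ r g m u (Γ.get i) (Γ.drop (i + 1)) (l ++ B)))
      ≤ ∑ j ∈ range (K0 + 4 * h + 1), E * lev (r + 2 * h - j) (Γ.get i) (Γ.drop (i + 1)) l := by
    intro i l
    set x := Γ.get i with hx
    set ρ := Γ.drop (i + 1) with hρ
    have hnd : (x :: ρ).Nodup := E6_nodup Γ hΓ i
    have hrhs0 : 0 ≤ ∑ j ∈ range (K0 + 4 * h + 1), E * lev (r + 2 * h - j) x ρ l :=
      Finset.sum_nonneg fun j _ => mul_nonneg hE0 (ind_nonneg _)
    by_cases hlev : (run (x :: ρ) l).length ≤ r + 2 * h + 1 ∧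
        r + 1 ≤ (run (x :: ρ) l).length + K0 + 2 * h
    · have hL1 := E6_len_pos x ρ l
      have hsum : E ≤ ∑ j ∈ range (K0 + 4 * h + 1), E * lev (r + 2 * h - j) x ρ l := by
        have hj : r + 2 * h + 1 - (run (x :: ρ) l).length ∈ range (K0 + 4 * h + 1) := by
          rw [Finset.mem_range]; omega
        have h1 := Finset.single_le_sum (f := fun j => E * lev (r + 2 * h - j) x ρ l)
          (fun j _ => mul_nonneg hE0 (ind_nonneg _)) hj
        refine le_trans (le_of_eq ?_) h1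
        unfold lev
        rw [ind_true (by omega), mul_one]
      refine le_trans ?_ hsum
      calc W K (2 * h) (lst x l) (fun B => ind (∀ y ∈ B, y ∉ Γ) *
            ((1 - ind (LHin (2 * h) (2 * h) x ρ (l ++ B))) *
            ∑ m ∈ range (K0 + 1), ∑ u ∈ range (U + 1), E6_f K h Γ r g m u x ρ (l ++ B)))
          ≤ W K (2 * h) (lst x l) (fun B =>
            ∑ m ∈ range (K0 + 1), ∑ u ∈ range (U + 1), E6_f K h Γ r g m u x ρ (l ++ B)) := by
            refine W_mono K _ _ fun B _ => ?_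
            set Sf := ∑ m ∈ range (K0 + 1), ∑ u ∈ range (U + 1), E6_f K h Γ r g m u x ρ (l ++ B)
            have hSf : 0 ≤ Sf := Finset.sum_nonneg fun m _ => Finset.sum_nonneg fun u _ =>
              E6_f_nonneg K h Γ r g m u x ρ _
            have a1 := ind_nonneg (∀ y ∈ B, y ∉ Γ)
            have a2 := ind_le_one (∀ y ∈ B, y ∉ Γ)
            have b1 := ind_nonneg (LHin (2 * h) (2 * h) x ρ (l ++ B))
            have b2 := ind_le_one (LHin (2 * h) (2 * h) x ρ (l ++ B))
            have c1 : (1 - ind (LHin (2 * h) (2 * h) x ρ (l ++ B))) * Sf ≤ 1 * Sf :=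
              mul_le_mul_of_nonneg_right (by linarith) hSf
            have c2 : 0 ≤ (1 - ind (LHin (2 * h) (2 * h) x ρ (l ++ B))) * Sf :=
              mul_nonneg (by linarith) hSf
            calc _ ≤ 1 * ((1 - ind (LHin (2 * h) (2 * h) x ρ (l ++ B))) * Sf) :=
                  mul_le_mul_of_nonneg_right a2 c2
              _ ≤ Sf := by linarith
        _ = ∑ m ∈ range (K0 + 1), ∑ u ∈ range (U + 1), W K (2 * h) (lst x l) (fun B =>
              E6_f K h Γ r g m u x ρ (l ++ B)) := by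
            rw [W_sum]
            refine Finset.sum_congr rfl fun m _ => ?_
            rw [W_sum]
        _ ≤ CZ θ ^ 2 * θ * (3 / (2 * (Fintype.card V : ℝ))) *
        (((U : ℝ) + K0) * (Γ ++ run (x :: ρ) l).length + 2 * K0 * (2 * h + 1 + U)) :=
            E6_fine hP Γ r g K0 U hKU x ρ l
        _ ≤ E := by
            have hlen : ((Γ ++ run (x :: ρ) l).length : ℝ) ≤ (2 * A + 1) * sn := by
              rw [List.length_append]
              push_cast
              have h1 : ((run (x :: ρ) l).length : ℝ) ≤ r + 2 * h + 1 := by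
                exact_mod_cast hlev.1
              have h2 : (2 * (h : ℝ) + 1) ≤ sn := by
                rw [hsn]
                exact_mod_cast (show 2 * h + 1 ≤ Nat.sqrt (Fintype.card V) by omega)
              linarith
            have hlen2 : (2 * (h : ℝ) + 1 + U) ≤ sn := by
              rw [hsn]
              exact_mod_cast (show 2 * h + 1 + U ≤ Nat.sqrt (Fintype.card V) by omega)
            rw [hE]
            gcongr
    · refine le_trans (le_of_eq ?_) hrhs0
      rw [W_congr K (2 * h) _ (g := fun _ => 0) fun B hB => ?_, W_const]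
      by_cases hLH : LHin (2 * h) (2 * h) x ρ (l ++ B)
      · rw [ind_true hLH]; ring
      · have hz : ∑ m ∈ range (K0 + 1), ∑ u ∈ range (U + 1), E6_f K h Γ r g m u x ρ (l ++ B) = 0 := by
          refine Finset.sum_eq_zero fun m hm => Finset.sum_eq_zero fun u _ => ?_
          unfold E6_f
          rw [W_congr K u _ (g := fun _ => 0) fun R _ => ?_, W_const]
          rw [W_congr K m _ (g := fun _ => 0) fun F hF => ?_, W_const]
          have hm' : m ≤ K0 := by simpa [Nat.lt_succ_iff] using Finset.mem_range.1 hm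
          have : ind ((run (x :: ρ) (l ++ B)).length + lel (lst (lst x (l ++ B)) R) F = r + 1) = 0 :=
            ind_false fun e => hlev (E6_levels h x ρ l B F r K0 m _ hnd hB hLH hF hm' e)
          rw [this]; ring
        rw [hz]; ring
  -- summation
  calc ∑ s ∈ Finset.Ico (2 * h) N, kmT K Γ s (fun x ρ l =>
        (1 - ind (LHin (2 * h) (2 * h) x ρ l)) *
        ∑ m ∈ range (K0 + 1), ∑ u ∈ range (U + 1), E6_f K h Γ r g m u x ρ l)
      ≤ ∑ s ∈ Finset.range (N - 2 * h), kmT K Γ s (fun x ρ l =>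
          ∑ j ∈ range (K0 + 4 * h + 1), E * lev (r + 2 * h - j) x ρ l) := by
        rw [Finset.sum_Ico_eq_sum_range]
        refine Finset.sum_le_sum fun s _ => ?_
        rw [Nat.add_comm (2 * h) s, kmT_split]
        exact kmT_mono K Γ s fun i l _ _ => key i l
    _ = ∑ j ∈ range (K0 + 4 * h + 1), E * km K Γ (N - 2 * h) (lev (r + 2 * h - j)) := by
        have h1 := km_sum K (range (K0 + 4 * h + 1)) Γ (N - 2 * h)
          (fun j x ρ l => E * lev (r + 2 * h - j) x ρ l)
        unfold km at h1 ⊢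
        rw [h1]
        refine Finset.sum_congr rfl fun j _ => ?_
        have h2 := km_mul_left K Γ (N - 2 * h) E (lev (r + 2 * h - j))
        unfold km at h2
        exact h2
    _ ≤ ∑ _j ∈ range (K0 + 4 * h + 1), E * (CP θ * ((2 + A) * sn)) := by
        refine Finset.sum_le_sum fun j _ => mul_le_mul_of_nonneg_left ?_ hE0
        refine (phi_bound hP Γ hΓ (N - 2 * h) (r + 2 * h - j)).trans ?_
        refine mul_le_mul_of_nonneg_left ?_ hCP
        have h1 : ((r + 2 * h - j : ℕ) : ℝ) ≤ r + 2 * h := by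
          exact_mod_cast Nat.sub_le _ _
        have h2 : (2 * (h : ℝ)) ≤ sn := by
          rw [hsn]
          exact_mod_cast (show 2 * h ≤ Nat.sqrt (Fintype.card V) by omega)
        linarith
    _ = _ := by
        rw [Finset.sum_const, Finset.card_range, nsmul_eq_mul]
        push_cast
        ring

theorem E6_arith (Z θ P A n sn hh K0 U : ℝ) (hZ : 0 ≤ Z) (hθ : 0 ≤ θ) (hP : 0 ≤ P) (hA : 0 ≤ A)
    (hsn : 1 ≤ sn) (hsq : sn * sn ≤ n) (hh1 : 1 ≤ hh) (hK0 : 2 * hh ≤ K0) (hU : 0 ≤ U)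
    (x1 x2 : ℝ) (h1 : x1 ≤ Z ^ 2 * ((K0 + 1) * (3 / 2 * Z * (2 * hh + 1))))
    (h2 : x2 ≤ (Z ^ 2 * θ * (3 / (2 * n)) * ((U + K0) * ((2 * A + 1) * sn) + 2 * K0 * sn)) *
        ((K0 + 4 * hh + 1) * (P * ((2 + A) * sn)))) :
    x1 + x2 ≤ (1 + (9 / 2 * Z ^ 3 + 9 / 2 * (Z ^ 2 * θ * (P * ((2 * A + 3) * (2 + A)))))) *
      ((K0 + 1) * (K0 + U + hh)) := by
  have hn0 : 0 < n := lt_of_lt_of_le (by positivity) hsq
  have hq : 3 / (2 * n) * (sn * sn) ≤ 3 / 2 := by
    rw [div_mul_eq_mul_div, div_le_iff₀ (by positivity)]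
    nlinarith
  have hKr : 0 ≤ K0 := by linarith
  have hh0 : 0 ≤ hh := by linarith
  have b1 : Z ^ 2 * ((K0 + 1) * (3 / 2 * Z * (2 * hh + 1)))
      ≤ 9 / 2 * Z ^ 3 * ((K0 + 1) * (K0 + U + hh)) := by
    have c1 : (2 * hh + 1) ≤ 3 * (K0 + U + hh) := by linarith
    have c2 : 0 ≤ Z ^ 3 * (K0 + 1) := by positivity
    have c3 := mul_le_mul_of_nonneg_left c1 c2
    calc _ = 3 / 2 * (Z ^ 3 * (K0 + 1) * (2 * hh + 1)) := by ring
      _ ≤ 3 / 2 * (Z ^ 3 * (K0 + 1) * (3 * (K0 + U + hh))) := by linarith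
      _ = _ := by ring
  have b2 : (Z ^ 2 * θ * (3 / (2 * n)) * ((U + K0) * ((2 * A + 1) * sn) + 2 * K0 * sn)) *
        ((K0 + 4 * hh + 1) * (P * ((2 + A) * sn)))
      ≤ 9 / 2 * (Z ^ 2 * θ * (P * ((2 * A + 3) * (2 + A)))) * ((K0 + 1) * (K0 + U + hh)) := by
    have c1 : (U + K0) * (2 * A + 1) + 2 * K0 ≤ (K0 + U + hh) * (2 * A + 3) := by
      have d1 : 0 ≤ hh * (2 * A + 3) := by positivity
      nlinarith
    have c2 : K0 + 4 * hh + 1 ≤ 3 * (K0 + 1) := by linarith
    have c3 : 0 ≤ (U + K0) * (2 * A + 1) + 2 * K0 := by positivity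
    have c4 : 0 ≤ K0 + 4 * hh + 1 := by positivity
    have c5 : ((U + K0) * (2 * A + 1) + 2 * K0) * (K0 + 4 * hh + 1) ≤
        ((K0 + U + hh) * (2 * A + 3)) * (3 * (K0 + 1)) :=
      mul_le_mul c1 c2 c4 (by positivity)
    have c6 : (3 / (2 * n) * (sn * sn)) *
        (((U + K0) * (2 * A + 1) + 2 * K0) * (K0 + 4 * hh + 1)) ≤
        3 / 2 * (((K0 + U + hh) * (2 * A + 3)) * (3 * (K0 + 1))) :=
      mul_le_mul hq c5 (mul_nonneg c3 c4) (by norm_num)
    have c7 : 0 ≤ Z ^ 2 * θ * (P * (2 + A)) := by positivity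
    have c8 := mul_le_mul_of_nonneg_left c6 c7
    calc _ = Z ^ 2 * θ * (P * (2 + A)) * ((3 / (2 * n) * (sn * sn)) *
        (((U + K0) * (2 * A + 1) + 2 * K0) * (K0 + 4 * hh + 1))) := by ring
      _ ≤ _ := c8
      _ = _ := by ring
  have b3 : 0 ≤ (K0 + 1) * (K0 + U + hh) := by positivity
  calc x1 + x2 ≤ 9 / 2 * Z ^ 3 * ((K0 + 1) * (K0 + U + hh)) +
        9 / 2 * (Z ^ 2 * θ * (P * ((2 * A + 3) * (2 + A)))) * ((K0 + 1) * (K0 + U + hh)) +
        1 * ((K0 + 1) * (K0 + U + hh)) := by linarith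
    _ = _ := by ring

theorem err_B (θ A : ℝ) : ∃ C : ℝ, 0 < C ∧ ∀ (V : Type) [Fintype V] [DecidableEq V] (K : HW V) (h : ℕ),
    Par K θ h → ∀ Γ : List V, Γ.Nodup → (Γ.length : ℝ) ≤ A * Nat.sqrt (Fintype.card V) →
    ∀ r g K0 U N : ℕ, (r : ℝ) ≤ A * Nat.sqrt (Fintype.card V) → 2 * h ≤ K0 →
    4 * (K0 + U) ≤ Nat.sqrt (Fintype.card V) →
    ∑ m ∈ Finset.range (K0 + 1), ∑ u ∈ Finset.range (U + 1), ∑ s ∈ Finset.Ico (2 * h) N,
      kmT K Γ s (fun x ρ l => W K u (lst x l) (fun R => W K m (lst (lst x l) R) (fun F =>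
        ind (lel (lst x l) R = g) *
        ind ((run (x :: ρ) l).length + lel (lst (lst x l) R) F = r + 1) *
        ind ((∃ y ∈ R, y ∈ Γ ∨ y ∈ run (x :: ρ) (l.rdrop (2 * h))) ∨
          (∃ y ∈ F, y ∈ Γ ∨ y ∈ run (x :: ρ) (l.rdrop (2 * h))) ∨
          (∃ y ∈ F.drop (2 * h), y ∈ (x :: (l ++ R)).rtake (2 * h + 1 + R.length))))))
      ≤ C * (((K0 : ℝ) + 1) * (K0 + U + h)) := by
  have hA0 : 0 ≤ max A 0 := le_max_right _ _
  have hθ0 : 0 ≤ max θ 0 := le_max_right _ _
  have hCZ := E6_CZ_nonneg θ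
  have hCP' : 0 ≤ CP (max θ 0) := by
    have := E6_CZ_nonneg (max θ 0)
    unfold CP; positivity
  refine ⟨1 + (9 / 2 * CZ θ ^ 3 + 9 / 2 * (CZ θ ^ 2 * (max θ 0) *
    (CP (max θ 0) * ((2 * (max A 0) + 3) * (2 + max A 0))))), by positivity, ?_⟩
  intro V _ _ K h hP Γ hΓ hΓl r g K0 U N hr hK0 hKU
  have hθ1 : max θ 0 = θ := max_eq_left (le_trans zero_le_one hP.one_le)
  rw [hθ1] at hCP' hθ0 ⊢
  have hΓl' : (Γ.length : ℝ) ≤ (max A 0) * Nat.sqrt (Fintype.card V) :=
    hΓl.trans (mul_le_mul_of_nonneg_right (le_max_left _ _) (Nat.cast_nonneg _))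
  have hr' : (r : ℝ) ≤ (max A 0) * Nat.sqrt (Fintype.card V) :=
    hr.trans (mul_le_mul_of_nonneg_right (le_max_left _ _) (Nat.cast_nonneg _))
  have hh := hP.h_le
  have hh1 := hP.h_pos
  have hswap := E6_swap K Γ K0 U (2 * h) N (E6_f K h Γ r g)
  change ∑ m ∈ Finset.range (K0 + 1), ∑ u ∈ Finset.range (U + 1), ∑ s ∈ Finset.Ico (2 * h) N,
      kmT K Γ s (E6_f K h Γ r g m u) ≤ _
  rw [hswap]
  have hsplit : ∀ s, kmT K Γ s (fun x ρ l =>
        ∑ m ∈ range (K0 + 1), ∑ u ∈ range (U + 1), E6_f K h Γ r g m u x ρ l)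
      = kmT K Γ s (fun x ρ l => ind (LHin (2 * h) (2 * h) x ρ l) *
          ∑ m ∈ range (K0 + 1), ∑ u ∈ range (U + 1), E6_f K h Γ r g m u x ρ l) +
        kmT K Γ s (fun x ρ l => (1 - ind (LHin (2 * h) (2 * h) x ρ l)) *
          ∑ m ∈ range (K0 + 1), ∑ u ∈ range (U + 1), E6_f K h Γ r g m u x ρ l) := by
    intro s
    rw [← kmT_add]
    refine kmT_congr K Γ s fun i l _ _ => ?_
    ring
  simp only [hsplit, Finset.sum_add_distrib]
  have h1 := E6_partLH hP Γ hΓ r g K0 U N hKU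
  have h2 := E6_partNo hP Γ hΓ (max A 0) hΓl' r g K0 U N hr' hKU
  refine E6_arith (CZ θ) θ (CP θ) (max A 0) (Fintype.card V : ℝ) (Nat.sqrt (Fintype.card V) : ℝ)
    (h : ℝ) (K0 : ℝ) (U : ℝ) hCZ hθ0 hCP' hA0 ?_ ?_ ?_ ?_ (Nat.cast_nonneg _) _ _ h1 h2
  · exact_mod_cast (show 1 ≤ Nat.sqrt (Fintype.card V) by omega)
  · exact_mod_cast Nat.sqrt_le (Fintype.card V)
  · exact_mod_cast hh1
  · exact_mod_cast hK0

end Pool.Agent.helper20.HP
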